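import Pool.Agent.H72.EN.Targets
import Pool.Agent.H93.EB.Basic
import Pool.Agent.H28.NW.Targets

/-!
# Row FAI of enl_modules: the share of the windows which are not regular
-/

set_option autoImplicit false

open Finset Pool.Agent.H6.N4D Pool.Agent.H93.EB Pool.Agent.H28.EN Pool.Agent.H72.EN

namespace Pool.Agent.H42.NW.FAI

open Pool.Agent.H28.NW
theorem hs_two_pow (L : ℕ) : hs (2 ^ L) ≤ 1 + L := by
  refine (hs_le _).trans ?_
  push_cast
  rw [Real.log_pow]
  have h1 : Real.log 2 ≤ 1 := by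
    have := Real.log_le_sub_one_of_pos (x := 2) (by norm_num)
    linarith
  have h2 : (0 : ℝ) ≤ L := Nat.cast_nonneg _
  nlinarith

/-- the square of a mean -/
theorem sq_mean (R : ℕ) (x : ℕ → ℝ) (hR : 0 < R) :
    ((∑ j ∈ range R, x j) / R) ^ 2 ≤ (∑ j ∈ range R, x j ^ 2) / R := by
  have hR0 : (0 : ℝ) < R := by exact_mod_cast hR
  have h1 := sq_sum_le_card_mul_sum_sq (s := range R) (f := x)
  rw [Finset.card_range] at h1
  rw [div_pow, div_le_div_iff₀ (by positivity) hR0]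
  calc (∑ j ∈ range R, x j) ^ 2 * R ≤ (R * ∑ j ∈ range R, x j ^ 2) * R :=
        mul_le_mul_of_nonneg_right h1 hR0.le
    _ = (∑ j ∈ range R, x j ^ 2) * R ^ 2 := by ring

theorem M_sq_mean (lam : ℕ → ℝ) (L R n : ℕ) (hL : 0 < L) (hR : 0 < R) :
    M lam (L * R) n ^ 2 ≤ (∑ u ∈ range R, M lam L (n + u * L) ^ 2) / R := by
  have h1 := M_mul_le lam L R n hL hR
  have h2 := pow_le_pow_left₀ (M_nonneg lam (L * R) n) h1 2
  have h3 := h2.trans (sq_mean R _ hR)
  simp only [mul_comm L] at h3 ⊢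
  exact h3

theorem ind_pos' {p : Prop} (h : p) : Pool.Agent.H93.EB.ind p = 1 := if_pos h

theorem ind_neg' {p : Prop} (h : ¬ p) : Pool.Agent.H93.EB.ind p = 0 := if_neg h

theorem pf_FAI : W_FAI := by
  refine ⟨3 * 10 ^ 8, by positivity, ?_⟩
  intro X m lam hX hlam hm
  set L : ℕ := 2 ^ (m - 15) with hL
  have hL0 : 0 < L := by positivity
  have hLm : L * 2 ^ 15 = 2 ^ m := by
    rw [hL, ← pow_add]
    congr 1
    omega
  have hLm' : 2 ^ 15 * L = 2 ^ m := by rw [mul_comm]; exact hLm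
  set a : ℕ → ℝ := fun n => (∑ u ∈ range (2 ^ 15), M lam L (n + u * L) ^ 2) / 2 ^ 15 with ha
  have hMa : ∀ n, M lam (2 ^ m) n ^ 2 ≤ a n := by
    intro n
    have h1 := M_sq_mean lam L (2 ^ 15) n hL0 (by positivity)
    rw [hLm] at h1
    have h2 : ((2 ^ 15 : ℕ) : ℝ) = 2 ^ 15 := by norm_num
    rw [h2] at h1
    exact h1
  have hind : ∀ n ∈ Icc X.lo X.hi, ind (¬ Reg lam L n) ≤
      10 ^ 8 * (a n - M lam (2 ^ m) n ^ 2) := by
    intro n _
    have h1 := hMa n
    by_cases h : Reg lam L n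
    · rw [ind_neg' (not_not.mpr h)]
      exact mul_nonneg (by norm_num) (sub_nonneg.mpr h1)
    · rw [ind_pos' h]
      unfold Reg at h
      rw [hLm', not_le] at h
      have h2 : M lam (2 ^ m) n ^ 2 + 1 / 10 ^ 8 < a n := h
      have h3 : (1 : ℝ) = 10 ^ 8 * (1 / 10 ^ 8) := by norm_num
      linarith
  have h1 := wlg_mono hind
  rw [wlg_mul, wlg_sub] at h1
  have hf : ∀ n, |M lam L n ^ 2| ≤ 1 := by
    intro n
    have h2 := M_nonneg lam L n
    have h3 := M_le_one lam hlam L n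
    rw [abs_of_nonneg (by positivity)]
    nlinarith
  have h2 : wlg X a ≤ wlg X (fun n => M lam L n ^ 2) + 3 * (1 + m) := by
    have h3 : a = fun n => (1 / 2 ^ 15 : ℝ) * ∑ u ∈ range (2 ^ 15), M lam L (n + u * L) ^ 2 := by
      funext n
      rw [ha]
      ring
    rw [h3, wlg_mul, wlg_sum]
    have h4 : ∀ u ∈ range (2 ^ 15), wlg X (fun n => M lam L (n + u * L) ^ 2) ≤
        wlg X (fun n => M lam L n ^ 2) + 3 * (1 + m) := by
      intro u hu
      rw [Finset.mem_range] at hu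
      have h5 := (abs_le.mp (wlg_shift X (u * L) (fun n => M lam L n ^ 2) hf)).2
      have h6 : hs (u * L) ≤ hs (2 ^ m) := by
        apply hs_mono
        rw [← hLm']
        exact Nat.mul_le_mul_right _ hu.le
      have h7 := hs_two_pow m
      linarith
    have h5 := Finset.sum_le_sum h4
    rw [Finset.sum_const, Finset.card_range, nsmul_eq_mul] at h5
    have h6 : (1 / 2 ^ 15 : ℝ) * (((2 ^ 15 : ℕ) : ℝ) *
        (wlg X (fun n => M lam L n ^ 2) + 3 * (1 + m))) =
        wlg X (fun n => M lam L n ^ 2) + 3 * (1 + m) := by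
      push_cast
      ring
    rw [← h6]
    exact mul_le_mul_of_nonneg_left h5 (by positivity)
  linarith

end Pool.Agent.H42.NW.FAI
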